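import Pool.Agent.H66.TK.Stm

/-!
# Project TK (helper66), part IRR: a plane cubic without lines is irreducible
-/

set_option autoImplicit false

open Polynomial

namespace Pool.Agent.H27.TK

open Pool.Agent.H66.TK

/-- the coefficients of a vanishing polynomial of degree three -/
theorem coef0 {K : Type} [Field K] (e0 e1 e2 e3 : K)
    (h : (C e0 + C e1 * X + C e2 * X ^ 2 + C e3 * X ^ 3 : K[X]) = 0) :
    e0 = 0 ∧ e1 = 0 ∧ e2 = 0 ∧ e3 = 0 := by
  have h0 := congrArg (fun p => coeff p 0) h
  have h1 := congrArg (fun p => coeff p 1) h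
  have h2 := congrArg (fun p => coeff p 2) h
  have h3 := congrArg (fun p => coeff p 3) h
  simp [coeff_X, coeff_C, coeff_X_pow] at h0 h1 h2 h3
  exact ⟨h0, h1, h2, h3⟩

/-- a root of the cubic is a polynomial of degree at most one -/
theorem root_deg {K : Type} [Field K] (A B p : K[X]) (hA : A.natDegree ≤ 2) (hB : B.natDegree ≤ 3)
    (h : p ^ 3 + A * p + B = 0) : p.natDegree ≤ 1 := by
  by_contra hd
  push Not at hd
  have h1 : p ^ 3 = -(A * p + B) := by linear_combination h
  have h2 : (p ^ 3).natDegree = 3 * p.natDegree := natDegree_pow p 3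
  have h3 : (-(A * p + B)).natDegree ≤ 2 + p.natDegree := by
    rw [natDegree_neg]
    refine (natDegree_add_le _ _).trans (max_le ?_ (by omega))
    exact natDegree_mul_le.trans (by omega)
  rw [← h1, h2] at h3
  omega

/-- IRR. -/
theorem irr : S_IRR := by
  intro K _ _ a b hNL r g hinf
  classical
  -- the coefficients of the plane cubic
  obtain ⟨α, hα⟩ : ∃ α, α = ax a ![1, r] := ⟨_, rfl⟩
  obtain ⟨β, hβ⟩ : ∃ β, β = bx b ![1, r] := ⟨_, rfl⟩
  set A : K[X] := C (α 0) + C (α 1) * X + C (α 2) * X ^ 2 with hA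
  set B : K[X] := C (β 0) + C (β 1) * X + C (β 2) * X ^ 2 + C (β 3) * X ^ 3 with hB
  have hAd : A.natDegree ≤ 2 := by rw [hA]; compute_degree
  have hBd : B.natDegree ≤ 3 := by rw [hB]; compute_degree
  -- no root
  have hroot : ∀ p : K[X], p ^ 3 + A * p + B ≠ 0 := by
    intro p hp
    obtain ⟨m, l, rfl⟩ := exists_eq_X_add_C_of_natDegree_le_one (root_deg A B p hAd hBd hp)
    have h0 : (C (l ^ 3 + α 0 * l + β 0) + C (3 * l ^ 2 * m + α 0 * m + α 1 * l + β 1) * X +
        C (3 * l * m ^ 2 + α 1 * m + α 2 * l + β 2) * X ^ 2 +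
        C (m ^ 3 + α 2 * m + β 3) * X ^ 3 : K[X]) = 0 := by
      rw [← hp, hA, hB]
      simp only [map_add, map_mul, map_pow, map_ofNat]
      ring
    obtain ⟨e0, e1, e2, e3⟩ := coef0 _ _ _ _ h0
    obtain ⟨x, hx⟩ := hNL ![1, algebraMap K (AlgebraicClosure K) r] (by
      intro h
      have := congrFun h 0
      simp at this) (algebraMap K _ l) (algebraMap K _ m)
    apply hx
    have t0 := congrArg (algebraMap K (AlgebraicClosure K)) e0
    have t1 := congrArg (algebraMap K (AlgebraicClosure K)) e1
    have t2 := congrArg (algebraMap K (AlgebraicClosure K)) e2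
    have t3 := congrArg (algebraMap K (AlgebraicClosure K)) e3
    rw [hα, hβ] at t0 t1 t2 t3
    unfold ax bx q2 q3 at t0 t1 t2 t3
    simp only [map_add, map_mul, map_pow, map_zero, map_ofNat, Matrix.cons_val_zero,
      Matrix.cons_val_one, map_one] at t0 t1 t2 t3
    unfold FF cub ax bx q2 q3
    unfold ex
    simp only [Matrix.cons_val_zero, Matrix.cons_val_one]
    linear_combination x 0 ^ 3 * t0 + x 0 ^ 2 * x 1 * t1 + x 0 * x 1 ^ 2 * t2 + x 1 ^ 3 * t3
  -- the cubic in `w`
  set P : K[X][X] := X ^ 3 + C A * X + C B with hP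
  set G : K[X][X] := C (g 0) + C (g 1) * X + C (g 2) * X ^ 2 with hG
  have hPdeg : P.natDegree = 3 := by rw [hP]; compute_degree!
  have hPm : P.Monic := by rw [hP]; monicity!
  by_contra hg
  let F := FractionRing K[X]
  let ι : K[X] →+* F := algebraMap K[X] F
  have hι : Function.Injective ι := IsFractionRing.injective K[X] F
  have hPF : (P.map ι).Monic := hPm.map ι
  have hPFdeg : (P.map ι).natDegree = 3 := by rw [hPm.natDegree_map]; exact hPdeg
  have hirr : Irreducible (P.map ι) := by
    rw [irreducible_iff_roots_eq_zero_of_degree_le_three (by omega) (by omega)]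
    rw [Multiset.eq_zero_iff_forall_notMem]
    intro z hz
    have hz1 := (mem_roots (hPF.ne_zero)).1 hz
    have hz2 : (P.map ι).eval z = 0 := hz1
    rw [eval_map] at hz2
    have hint : IsIntegral K[X] z := ⟨P, hPm, hz2⟩
    obtain ⟨p, hp⟩ := IsIntegrallyClosed.isIntegral_iff.1 hint
    rw [← hp] at hz2
    apply hroot p
    apply hι
    rw [map_zero, ← hz2, hP]
    simp only [eval₂_add, eval₂_mul, eval₂_pow, eval₂_X, eval₂_C, map_add, map_mul, map_pow]
    rfl
  have hGne : G.map ι ≠ 0 := by
    intro h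
    apply hg
    have h1 : G = 0 := Polynomial.map_injective ι hι (by rw [h, Polynomial.map_zero])
    have h2 : C (g 0) + C (g 1) * X + C (g 2) * X ^ 2 + C 0 * X ^ 3 = (0 : K[X][X]) := by
      rw [← h1, hG]; simp
    funext i
    have c0 := congrArg (fun p => coeff p 0) h1
    have c1 := congrArg (fun p => coeff p 1) h1
    have c2 := congrArg (fun p => coeff p 2) h1
    rw [hG] at c0 c1 c2
    simp [coeff_X, coeff_C, coeff_X_pow] at c0 c1 c2
    fin_cases i
    · exact c0
    · exact c1
    · exact c2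
  have hcop : IsCoprime (P.map ι) (G.map ι) := by
    rw [Irreducible.coprime_iff_not_dvd hirr]
    intro hd
    have h1 := natDegree_le_of_dvd hd hGne
    rw [hPFdeg] at h1
    have h2 : (G.map ι).natDegree ≤ 2 := by
      refine natDegree_map_le.trans ?_
      rw [hG]; compute_degree
    omega
  obtain ⟨u, v, huv⟩ := hcop
  obtain ⟨b1, hm1, hb1⟩ := IsLocalization.integerNormalization_spec (nonZeroDivisors K[X]) u
  obtain ⟨b2, hm2, hb2⟩ := IsLocalization.integerNormalization_spec (nonZeroDivisors K[X]) v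
  set u1 := IsLocalization.integerNormalization (nonZeroDivisors K[X]) u with hu1
  set v1 := IsLocalization.integerNormalization (nonZeroDivisors K[X]) v with hv1
  have hid : (C (b2 : K[X]) * u1) * P + (C (b1 : K[X]) * v1) * G = C ((b1 : K[X]) * b2) := by
    apply Polynomial.map_injective ι hι
    have e1 : u1.map ι = C (ι b1) * u := by
      rw [show u1.map ι = (b1 : K[X]) • u from hb1, Algebra.smul_def]
      rfl
    have e2 : v1.map ι = C (ι b2) * v := by
      rw [show v1.map ι = (b2 : K[X]) • v from hb2, Algebra.smul_def]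
      rfl
    simp only [Polynomial.map_add, Polynomial.map_mul, map_C, e1, e2, map_mul]
    linear_combination (C (ι b1) * C (ι b2)) * huv
  have hzero : (b1 : K[X]) * b2 = 0 := by
    apply Polynomial.eq_zero_of_infinite_isRoot
    refine hinf.mono ?_
    rintro t ⟨w, hw1, hw2⟩
    have h := congrArg (eval₂RingHom (evalRingHom t) w) hid
    simp only [map_add, map_mul, coe_eval₂RingHom, eval₂_C, coe_evalRingHom] at h
    have e1 : eval₂ (evalRingHom t) w P = 0 := by
      rw [hP]
      simp only [eval₂_add, eval₂_mul, eval₂_pow, eval₂_X, eval₂_C, coe_evalRingHom]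
      rw [← hw1, hA, hB, hα, hβ]
      simp only [eval_add, eval_mul, eval_pow, eval_X, eval_C]
      unfold FF cub
      conv_rhs => unfold q2 q3
      simp only [Matrix.cons_val_zero, Matrix.cons_val_one]
      ring
    have e2 : eval₂ (evalRingHom t) w G = 0 := by
      rw [hG]
      simp only [eval₂_add, eval₂_mul, eval₂_pow, eval₂_X, eval₂_C, coe_evalRingHom]
      exact hw2
    rw [e1, e2, mul_zero, mul_zero, add_zero] at h
    change eval t ((b1 : K[X]) * b2) = 0
    rw [eval_mul]
    exact h.symm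
  have hne1 : (b1 : K[X]) ≠ 0 := nonZeroDivisors.ne_zero hm1
  have hne2 : (b2 : K[X]) ≠ 0 := nonZeroDivisors.ne_zero hm2
  exact mul_ne_zero hne1 hne2 hzero

end Pool.Agent.H27.TK
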