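import Pool.Agent.H65.TK.NulSt

/-!
# Project TK (helper66), part LIS: the local inequalities on the surface
-/

set_option autoImplicit false

open Pool.Agent.Y720.MZ MvPolynomial Height AdmissibleAbsValues Pool.Agent.Q35.TT

namespace Pool.Agent.H27.TK

open Pool.Agent.H66.TK

variable {K : Type} [Field K]

/-- the scaled coefficients -/
def al' (α : Fin 3 → K) (κ : K) : Fin 3 → K := fun i => α i / κ ^ 2

/-- the scaled coefficients -/
def be' (β : Fin 4 → K) (κ : K) : Fin 4 → K := fun i => β i / κ ^ 3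

theorem cub_sc (α : Fin 3 → K) (β : Fin 4 → K) (w : K) (x : Fin 2 → K) (κ : K) (hκ : κ ≠ 0) :
    cub (al' α κ) (be' β κ) (w / κ) x = cub α β w x / κ ^ 3 := by
  unfold cub q2 q3 al' be'
  field_simp

theorem cw_sc (α : Fin 3 → K) (w : K) (x : Fin 2 → K) (κ : K) (hκ : κ ≠ 0) :
    cw (al' α κ) (w / κ) x = cw α w x / κ ^ 2 := by
  unfold cw q2 al'
  field_simp

theorem c1_sc (α : Fin 3 → K) (β : Fin 4 → K) (w : K) (x : Fin 2 → K) (κ : K) (hκ : κ ≠ 0) :
    c1 (al' α κ) (be' β κ) (w / κ) x = c1 α β w x / κ ^ 3 := by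
  unfold c1 al' be'
  field_simp

theorem DD_sc (α : Fin 3 → K) (β : Fin 4 → K) (w : K) (x : Fin 2 → K) (κ : K) (hκ : κ ≠ 0) :
    DD (al' α κ) (be' β κ) (w / κ) x = DD α β w x / κ ^ 7 := by
  unfold DD
  rw [cw_sc α w x κ hκ, c1_sc α β w x κ hκ]
  unfold mm al' be'
  field_simp

theorem NN_sc (α : Fin 3 → K) (β : Fin 4 → K) (w : K) (x : Fin 2 → K) (κ : K) (hκ : κ ≠ 0) :
    Pool.Agent.H66.TK.NN (al' α κ) (be' β κ) (w / κ) x = Pool.Agent.H66.TK.NN α β w x / κ ^ 9 := by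
  unfold Pool.Agent.H66.TK.NN
  rw [cw_sc α w x κ hκ, c1_sc α β w x κ hκ]
  unfold nn al' be'
  field_simp

theorem gq_sc (α : Fin 3 → K) (β : Fin 4 → K) (w : K) (x : Fin 2 → K) (κ : K) (hκ : κ ≠ 0) :
    gq (al' α κ) (be' β κ) (w / κ) x =
      fun i => gq α β w x i * κ ^ (i : ℕ) / (κ ^ 3) ^ 2 := by
  funext i
  unfold gq
  rw [cw_sc α w x κ hκ, c1_sc α β w x κ hκ]
  unfold al' be'
  fin_cases i
  · simp only [Fin.zero_eta, Fin.isValue, Matrix.cons_val_zero, Fin.coe_ofNat_eq_mod]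
    field_simp
  · simp only [Fin.mk_one, Fin.isValue, Matrix.cons_val_one, Matrix.cons_val_zero, Fin.coe_ofNat_eq_mod]
    field_simp
  · simp only [Fin.reduceFinMk, Fin.isValue, Matrix.cons_val, Fin.coe_ofNat_eq_mod]
    field_simp
  · simp only [Fin.reduceFinMk, Fin.isValue, Matrix.cons_val, Fin.coe_ofNat_eq_mod]
    field_simp
  · simp only [Fin.reduceFinMk, Fin.isValue, Matrix.cons_val, Fin.coe_ofNat_eq_mod]
    field_simp

variable [NumberField K]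

theorem cst_prod {ι : Type} (s : Finset ι) (A : ι → AbsoluteValue K ℝ → ℝ) (hA : ∀ i, Cst (A i)) :
    Cst (fun v => ∏ i ∈ s, A i v) := by
  classical
  induction s using Finset.induction_on with
  | empty => simpa using Pool.Agent.H65.TK.cst_one
  | insert i s hi ih =>
    have := Pool.Agent.H65.TK.cst_mul (hA i) ih
    simpa [Finset.prod_insert hi] using this

theorem le_cst_prod {ι : Type} [Fintype ι] (A : ι → AbsoluteValue K ℝ → ℝ) (hA : ∀ i, Cst (A i))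
    (v : AbsoluteValue K ℝ) (i : ι) : A i v ≤ ∏ j, A j v := by
  classical
  rw [← Finset.mul_prod_erase Finset.univ _ (Finset.mem_univ i)]
  refine le_mul_of_one_le_right (zero_le_one.trans ((hA i).one_le v)) ?_
  exact Pool.Agent.Q26.TT.one_le_prod _ _ fun j => (hA j).one_le v

/-- LIS. -/
theorem lis (h1 : S_SCL) (h2 : S_LIN) : S_LIS := by
  intro K _ _ a b
  -- bounds of the scaled coefficients
  have ha : ∀ i : Fin 3, ∃ C : AbsoluteValue K ℝ → ℝ, Cst C ∧ ∀ (v : AbsoluteValue K ℝ) (z : Fin 2 → K),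
      (∀ j, v (z j) ≤ 1) → v (q2 (a i) z) ≤ C v := by
    intro i
    obtain ⟨C, hC, hC'⟩ := Pool.Agent.H65.TK.poly_bd (K := K) (τ := Fin 2) Pool.Agent.H65.TK.cst_one
      (MvPolynomial.C (a i 0) * X 0 ^ 2 + MvPolynomial.C (a i 1) * (X 0 * X 1) + MvPolynomial.C (a i 2) * X 1 ^ 2)
    refine ⟨C, hC, fun v z hz => ?_⟩
    have := hC' v z hz
    simpa [q2] using this
  have hb : ∀ i : Fin 4, ∃ C : AbsoluteValue K ℝ → ℝ, Cst C ∧ ∀ (v : AbsoluteValue K ℝ) (z : Fin 2 → K),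
      (∀ j, v (z j) ≤ 1) → v (q3 (b i) z) ≤ C v := by
    intro i
    obtain ⟨C, hC, hC'⟩ := Pool.Agent.H65.TK.poly_bd (K := K) (τ := Fin 2) Pool.Agent.H65.TK.cst_one
      (MvPolynomial.C (b i 0) * X 0 ^ 3 + MvPolynomial.C (b i 1) * (X 0 ^ 2 * X 1) +
        MvPolynomial.C (b i 2) * (X 0 * X 1 ^ 2) + MvPolynomial.C (b i 3) * X 1 ^ 3)
    refine ⟨C, hC, fun v z hz => ?_⟩
    have := hC' v z hz
    simpa [q3] using this
  choose A hA hA' using ha
  choose B hB hB' using hb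
  obtain ⟨C, hC, hCC⟩ := h2 K (fun v => (∏ i, A i v) * ∏ i, B i v)
    (Pool.Agent.H65.TK.cst_mul (cst_prod _ A hA) (cst_prod _ B hB))
  refine ⟨C, hC, ?_⟩
  intro w t r n hn hF hFw hT
  have hcases : ∀ v : AbsoluteValue K ℝ, ∃ κ : K, κ ≠ 0 ∧ v κ = max 1 (v r) ∧ v (1 / κ) ≤ 1 ∧ v (r / κ) ≤ 1 := by
    intro v
    by_cases hr : 1 ≤ v r
    · have hr0 : r ≠ 0 := by
        rintro rfl
        rw [map_zero] at hr
        linarith
      refine ⟨r, hr0, (max_eq_right hr).symm, ?_, ?_⟩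
      · rw [map_div₀, map_one]
        exact div_le_one_of_le₀ hr (v.nonneg _)
      · rw [div_self hr0, map_one]
    · push Not at hr
      refine ⟨1, one_ne_zero, ?_, ?_, ?_⟩
      · rw [map_one, max_eq_left hr.le]
      · simp
      · rw [div_one]; exact hr.le
  have hscale : ∀ v : AbsoluteValue K ℝ, ∀ κ : K, κ ≠ 0 → v (1 / κ) ≤ 1 → v (r / κ) ≤ 1 →
      (∀ i, v (al' (ax a ![1, r]) κ i) ≤ (∏ i, A i v) * ∏ i, B i v) ∧
      (∀ i, v (be' (bx b ![1, r]) κ i) ≤ (∏ i, A i v) * ∏ i, B i v) := by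
    intro v κ hκ h1 h2
    have hz : ∀ j, v ((![1 / κ, r / κ] : Fin 2 → K) j) ≤ 1 := by
      intro j
      fin_cases j
      · exact h1
      · exact h2
    have hA1 : (1 : ℝ) ≤ ∏ i, A i v := Pool.Agent.Q26.TT.one_le_prod _ _ fun j => (hA j).one_le v
    have hB1 : (1 : ℝ) ≤ ∏ i, B i v := Pool.Agent.Q26.TT.one_le_prod _ _ fun j => (hB j).one_le v
    constructor
    · intro i
      have e : al' (ax a ![1, r]) κ i = q2 (a i) ![1 / κ, r / κ] := by
        unfold al' ax q2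
        simp only [Matrix.cons_val_zero, Matrix.cons_val_one]
        field_simp
      rw [e]
      refine ((hA' i v _ hz).trans (le_cst_prod A hA v i)).trans ?_
      exact le_mul_of_one_le_right (zero_le_one.trans hA1) hB1
    · intro i
      have e : be' (bx b ![1, r]) κ i = q3 (b i) ![1 / κ, r / κ] := by
        unfold be' bx q3
        simp only [Matrix.cons_val_zero, Matrix.cons_val_one]
        field_simp
      rw [e]
      refine ((hB' i v _ hz).trans (le_cst_prod B hB v i)).trans ?_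
      exact le_mul_of_one_le_left (zero_le_one.trans hB1) hA1
  have key : ∀ κ : K, κ ≠ 0 →
      (∀ v ∈ archAbsVal (K := K), (∀ i, v (al' (ax a ![1, r]) κ i) ≤ (∏ i, A i v) * ∏ i, B i v) →
        (∀ i, v (be' (bx b ![1, r]) κ i) ≤ (∏ i, A i v) * ∏ i, B i v) →
          v (Pool.Agent.H66.TK.NN (ax a ![1, r]) (bx b ![1, r]) w ![1, t] / κ ^ 9) ≤
            C v * (n : ℝ) ^ 2 * v (DD (ax a ![1, r]) (bx b ![1, r]) w ![1, t] / κ ^ 7) * max 1 (v t)) ∧
      (∀ v ∈ nonarchAbsVal (K := K), (∀ i, v (al' (ax a ![1, r]) κ i) ≤ (∏ i, A i v) * ∏ i, B i v) →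
        (∀ i, v (be' (bx b ![1, r]) κ i) ≤ (∏ i, A i v) * ∏ i, B i v) →
          v (Pool.Agent.H66.TK.NN (ax a ![1, r]) (bx b ![1, r]) w ![1, t] / κ ^ 9) ≤
            C v * v (DD (ax a ![1, r]) (bx b ![1, r]) w ![1, t] / κ ^ 7) * max 1 (v t)) := by
    intro κ hκ
    have hT' := h1 K _ _ κ (κ ^ 3) n hκ (pow_ne_zero 3 hκ) hT
    rw [← gq_sc _ _ _ _ κ hκ] at hT'
    have hcwne : cw (ax a ![1, r]) w ![1, t] ≠ 0 := hFw
    have e2 : -(c1 (ax a ![1, r]) (bx b ![1, r]) w ![1, t]) / cw (ax a ![1, r]) w ![1, t] / κ =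
        -(c1 (al' (ax a ![1, r]) κ) (be' (bx b ![1, r]) κ) (w / κ) ![1, t]) /
          cw (al' (ax a ![1, r]) κ) (w / κ) ![1, t] := by
      rw [c1_sc _ _ _ _ κ hκ, cw_sc _ _ _ κ hκ]
      field_simp
    rw [e2] at hT'
    have hF' : cub (al' (ax a ![1, r]) κ) (be' (bx b ![1, r]) κ) (w / κ) ![1, t] = 0 := by
      rw [cub_sc _ _ _ _ κ hκ]
      have : cub (ax a ![1, r]) (bx b ![1, r]) w ![1, t] = 0 := hF
      rw [this, zero_div]
    have hcw' : cw (al' (ax a ![1, r]) κ) (w / κ) ![1, t] ≠ 0 := by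
      rw [cw_sc _ _ _ κ hκ]
      exact div_ne_zero hcwne (pow_ne_zero 2 hκ)
    have h := hCC (al' (ax a ![1, r]) κ) (be' (bx b ![1, r]) κ) (w / κ) t n hn hF' hcw' hT'
    rw [DD_sc _ _ _ _ κ hκ, NN_sc _ _ _ _ κ hκ] at h
    exact h
  have fin : ∀ (v : AbsoluteValue K ℝ) (κ : K) (N D : K) (c m : ℝ), κ ≠ 0 →
      v (N / κ ^ 9) ≤ c * v (D / κ ^ 7) * m → v N ≤ c * v D * m * v κ ^ 2 := by
    intro v κ N D c m hκ h
    have hk : 0 < v κ := v.pos hκ
    rw [map_div₀, map_div₀, map_pow, map_pow, div_le_iff₀ (by positivity)] at h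
    refine h.trans (le_of_eq ?_)
    field_simp
  constructor
  · intro v hv
    obtain ⟨κ, hκ, hk1, hk2, hk3⟩ := hcases v
    obtain ⟨ha1, hb1⟩ := hscale v κ hκ hk2 hk3
    have h := fin v κ _ _ _ _ hκ ((key κ hκ).1 v hv ha1 hb1)
    rw [hk1] at h
    exact h
  · intro v hv
    obtain ⟨κ, hκ, hk1, hk2, hk3⟩ := hcases v
    obtain ⟨ha1, hb1⟩ := hscale v κ hκ hk2 hk3
    have h := fin v κ _ _ _ _ hκ ((key κ hκ).2 v hv ha1 hb1)
    rw [hk1] at h
    exact h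

end Pool.Agent.H27.TK
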