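import Pool.Agent.H66.TK.Stm

/-!
# Project TK (helper66), part ZAR: the rational points are Zariski dense near the points without torsion
-/

set_option autoImplicit false

open MvPolynomial

namespace Pool.Agent.H27.TK

open Pool.Agent.H66.TK

theorem tr_tr {K : Type} {k : ℕ} (a : Fin k → Fin k → K) : tr (tr a) = a := rfl

theorem eval_spec {K : Type} [Field K] (g : MvPolynomial (Fin 2) K) (t r : K) :
    (aeval ![Polynomial.C t, Polynomial.X] g : Polynomial K).eval r = eval ![t, r] g := by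
  have h : (Polynomial.evalRingHom r).comp (aeval ![Polynomial.C t, Polynomial.X] :
      MvPolynomial (Fin 2) K →ₐ[K] Polynomial K).toRingHom = eval ![t, r] := by
    apply MvPolynomial.ringHom_ext
    · intro c
      simp
    · intro i
      fin_cases i <;> simp
  have := congrArg (fun φ : MvPolynomial (Fin 2) K →+* K => φ g) h
  exact this

theorem eq_zero_of_spec {K : Type} [Field K] [Infinite K] (g : MvPolynomial (Fin 2) K) (S : Set K)
    (hS : S.Infinite) (h : ∀ t ∈ S, (aeval ![Polynomial.C t, Polynomial.X] g : Polynomial K) = 0) :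
    g = 0 := by
  refine MvPolynomial.funext_set (s := ![S, Set.univ]) ?_ ?_
  · intro i
    fin_cases i
    · exact hS
    · exact Set.infinite_univ
  · intro x hx
    have h0 : x 0 ∈ S := hx 0 (Set.mem_univ _)
    have hx2 : x = ![x 0, x 1] := by
      funext i
      fin_cases i <;> rfl
    rw [hx2, ← eval_spec g (x 0) (x 1), h _ h0, Polynomial.eval_zero, map_zero]

theorem zar_aux (h1 : S_TBN) (h2 : S_MOV) (h3 : S_IRR) (K : Type) [Field K] [NumberField K]
    (a : Fin 3 → Fin 3 → K) (b : Fin 4 → Fin 4 → K) (hl1 : NoLine a b) (hl2 : NoLine (tr a) (tr b))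
    (L : Type) [NontriviallyNormedField L] [CompleteSpace L] (σ : K →+* L)
    (hσ : DenseRange σ) (w t r : K) (hF : FF a b w ![1, t] ![1, r] = 0)
    (hFw : Fw a w ![1, t] ![1, r] ≠ 0) (hT : ¬ TFx a b w t r) : DenseAt σ a b w t r := by
  classical
  intro ε hε g hg
  have hinf : Infinite K := inferInstance
  -- first move
  have hm1 := h2 K L σ hσ (ax a ![1, r]) (bx b ![1, r]) w t hF hFw hT (ε / 2) (by linarith)
  -- the points of the ramification curve
  have hf1 : {t' : K | ∃ w' : K, FF a b w' ![1, t'] ![1, r] = 0 ∧ Fw a w' ![1, t'] ![1, r] = 0}.Finite := by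
    by_contra hi
    have hi' : {t' : K | ∃ w' : K, FF a b w' ![1, t'] ![1, r] = 0 ∧
        Fw a w' ![1, t'] ![1, r] = 0}.Infinite := hi
    have h := h3 K a b hl1 r ![Polynomial.C (ax a ![1, r] 0) + Polynomial.C (ax a ![1, r] 1) * Polynomial.X +
      Polynomial.C (ax a ![1, r] 2) * Polynomial.X ^ 2, 0, Polynomial.C 3] (hi'.mono (by
        rintro t' ⟨w', hw1, hw2⟩
        refine ⟨w', hw1, ?_⟩
        rw [← hw2]
        unfold Fw cw
        conv_rhs => unfold q2
        simp only [Matrix.cons_val_zero, Matrix.cons_val_one, Matrix.cons_val, Polynomial.eval_add,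
          Polynomial.eval_mul, Polynomial.eval_C, Polynomial.eval_X, Polynomial.eval_pow,
          Polynomial.eval_zero]
        ring))
    have h2' := congrFun h 2
    simp only [Matrix.cons_val, Pi.zero_apply] at h2'
    rw [Polynomial.C_eq_zero] at h2'
    norm_num at h2'
  have hf2 := h1 K a b hl2 r
  have hS := (hm1.diff hf1).diff (hf2.image Prod.snd)
  -- for those `t'` the polynomials vanish
  have key : ∀ t' ∈ (({t' : K | ‖σ t' - σ t‖ < ε / 2 ∧ ∃ w' : K, ‖σ w' - σ w‖ < ε / 2 ∧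
      cub (ax a ![1, r]) (bx b ![1, r]) w' ![1, t'] = 0} \ {t' : K | ∃ w' : K,
        FF a b w' ![1, t'] ![1, r] = 0 ∧ Fw a w' ![1, t'] ![1, r] = 0}) \
        (Prod.snd '' {z : K × K | FF a b z.1 ![1, z.2] ![1, r] = 0 ∧
          Fw a z.1 ![1, z.2] ![1, r] ≠ 0 ∧ TFx (tr a) (tr b) z.1 r z.2})), ∀ i,
      (aeval ![Polynomial.C t', Polynomial.X] (g i) : Polynomial K) = 0 := by
    rintro t' ⟨⟨⟨ht1, w', hw1, hw2⟩, hn1⟩, hn2⟩
    have hw2' : FF a b w' ![1, t'] ![1, r] = 0 := hw2
    have hFw' : Fw a w' ![1, t'] ![1, r] ≠ 0 := fun h => hn1 ⟨w', hw2', h⟩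
    have hT' : ¬ TFx (tr a) (tr b) w' r t' := fun h => hn2 ⟨(w', t'), ⟨hw2', hFw', h⟩, rfl⟩
    have hFt : FF (tr a) (tr b) w' ![1, r] ![1, t'] = 0 := by rw [FF_tr]; exact hw2'
    have hFwt : Fw (tr a) w' ![1, r] ![1, t'] ≠ 0 := by rw [Fw_tr]; exact hFw'
    have hm2 := h2 K L σ hσ (ax (tr a) ![1, t']) (bx (tr b) ![1, t']) w' r hFt hFwt hT' (ε / 2)
      (by linarith)
    have h := h3 K (tr a) (tr b) hl2 t'
      (fun i => (aeval ![Polynomial.C t', Polynomial.X] (g i) : Polynomial K)) (hm2.mono (by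
        rintro r' ⟨hr1, w'', hw3, hw4⟩
        have hw5 : FF (tr a) (tr b) w'' ![1, r'] ![1, t'] = 0 := hw4
        refine ⟨w'', hw5, ?_⟩
        rw [eval_spec, eval_spec, eval_spec]
        have hw6 : FF a b w'' ![1, t'] ![1, r'] = 0 := by rw [← FF_tr]; exact hw5
        refine hg w'' t' r' hw6 ?_ (ht1.trans (by linarith)) (hr1.trans (by linarith))
        calc ‖σ w'' - σ w‖ = ‖(σ w'' - σ w') + (σ w' - σ w)‖ := by congr 1; ring
          _ ≤ ‖σ w'' - σ w'‖ + ‖σ w' - σ w‖ := norm_add_le _ _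
          _ < ε := by linarith))
    intro i
    exact congrFun h i
  funext i
  exact eq_zero_of_spec (g i) _ hS fun t' ht' => key t' ht' i

theorem dense_swap {K L : Type} [Field K] [NontriviallyNormedField L] (σ : K →+* L)
    (a : Fin 3 → Fin 3 → K) (b : Fin 4 → Fin 4 → K) (w t r : K)
    (h : DenseAt σ (tr a) (tr b) w r t) : DenseAt σ a b w t r := by
  intro ε hε g hg
  have hsw : Function.Injective (Equiv.swap (0 : Fin 2) 1) := Equiv.injective _
  have he : ∀ (i : Fin 3) (x y : K), eval ![x, y] (rename (Equiv.swap (0 : Fin 2) 1) (g i)) =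
      eval ![y, x] (g i) := by
    intro i x y
    rw [eval_rename]
    congr 1
    apply congrArg
    funext j
    fin_cases j <;> simp
  have h1 := h ε hε (fun i => rename (Equiv.swap (0 : Fin 2) 1) (g i)) (by
    intro w' t' r' hF h1 h2 h3
    rw [FF_tr] at hF
    rw [he, he, he]
    exact hg w' r' t' hF h1 h3 h2)
  funext i
  have h2 := congrFun h1 i
  have h3 : rename (Equiv.swap (0 : Fin 2) 1) (g i) = 0 := h2
  exact (rename_eq_zero_iff_of_injective _ hsw).1 h3

/-- ZAR. -/
theorem zar (h1 : S_TBN) (h2 : S_MOV) (h3 : S_IRR) : S_ZAR := by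
  intro K _ _ a b hG L _ _ σ hσ w t r hF hFw hT
  by_cases h : TFx a b w t r
  · have h' : ¬ TFx (tr a) (tr b) w r t := fun h' => hT ⟨h, h'⟩
    apply dense_swap
    refine zar_aux h1 h2 h3 K (tr a) (tr b) hG.line₂ hG.line₁ L σ hσ w r t ?_ ?_ h'
    · rw [FF_tr]; exact hF
    · rw [Fw_tr]; exact hFw
  · exact zar_aux h1 h2 h3 K a b hG.line₁ hG.line₂ L σ hσ w t r hF hFw h

end Pool.Agent.H27.TK
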